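import Pool.Agent.H586.AF.C

/-!
Project AF, task QF: assembly of the quadratic form from its blocks.
-/

set_option autoImplicit false

open MeasureTheory Matrix Finset Filter Topology

namespace Pool.Agent.H962.AF

open Pool.Agent.H586.AF

section lin

variable (L : ℕ) (F G : ℕ → ℕ → ℕ → ℕ → ℝ)

theorem s12_add : s12 L (fun x y z h => F x y z h + G x y z h) = s12 L F + s12 L G := by
  simp only [s12, Finset.sum_add_distrib]

theorem s13_add : s13 L (fun x y z h => F x y z h + G x y z h) = s13 L F + s13 L G := by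
  simp only [s13, Finset.sum_add_distrib]

theorem s23_add : s23 L (fun x y z h => F x y z h + G x y z h) = s23 L F + s23 L G := by
  simp only [s23, Finset.sum_add_distrib]

end lin

/-- the square of a sum of two complex numbers -/
theorem half_sq (u v : ℂ) :
    (1 / 2 : ℝ) * ‖u + v‖ ^ 2 = (1 / 2) * ‖u‖ ^ 2 + (1 / 2) * ‖v‖ ^ 2 + (u * star v).re := by
  have e : ∀ w : ℂ, ‖w‖ ^ 2 = w.re * w.re + w.im * w.im := fun w => by
    rw [← Complex.normSq_eq_norm_sq, Complex.normSq_apply]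
  rw [e, e, e]
  simp only [Complex.add_re, Complex.add_im, Complex.mul_re, Complex.star_def, Complex.conj_re,
    Complex.conj_im]
  ring

/-- the conjugate transpose -/
theorem hf_ct {m n : Type} [Fintype m] [Fintype n] (a : n → ℂ) (M : Matrix m n ℂ) (b : m → ℂ) :
    hf a Mᴴ b = hf b M a := by
  unfold hf
  have h : ∑ i, ∑ j, star (a i) * Mᴴ i j * b j = star (∑ i, ∑ j, star (b i) * M i j * a j) := by
    rw [star_sum, Finset.sum_comm]
    refine Finset.sum_congr rfl fun i _ => ?_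
    rw [star_sum]
    refine Finset.sum_congr rfl fun j _ => ?_
    rw [Matrix.conjTranspose_apply, star_mul', star_mul', star_star]
    ring
  rw [h]
  exact Complex.conj_re _

/-- the form of a block matrix with three blocks -/
theorem hf_three {m n p : Type} [Fintype m] [Fintype n] [Fintype p]
    (M : Matrix (m ⊕ n ⊕ p) (m ⊕ n ⊕ p) ℂ) (b : m ⊕ n ⊕ p → ℂ)
    (M11 : Matrix m m ℂ) (M22 : Matrix n n ℂ) (M33 : Matrix p p ℂ)
    (M12 : Matrix m n ℂ) (M13 : Matrix m p ℂ) (M23 : Matrix n p ℂ)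
    (h11 : ∀ i j, M (Sum.inl i) (Sum.inl j) = M11 i j)
    (h12 : ∀ i j, M (Sum.inl i) (Sum.inr (Sum.inl j)) = M12 i j)
    (h13 : ∀ i j, M (Sum.inl i) (Sum.inr (Sum.inr j)) = M13 i j)
    (h21 : ∀ i j, M (Sum.inr (Sum.inl i)) (Sum.inl j) = M12ᴴ i j)
    (h22 : ∀ i j, M (Sum.inr (Sum.inl i)) (Sum.inr (Sum.inl j)) = M22 i j)
    (h23 : ∀ i j, M (Sum.inr (Sum.inl i)) (Sum.inr (Sum.inr j)) = M23 i j)
    (h31 : ∀ i j, M (Sum.inr (Sum.inr i)) (Sum.inl j) = M13ᴴ i j)
    (h32 : ∀ i j, M (Sum.inr (Sum.inr i)) (Sum.inr (Sum.inl j)) = M23ᴴ i j)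
    (h33 : ∀ i j, M (Sum.inr (Sum.inr i)) (Sum.inr (Sum.inr j)) = M33 i j) :
    (1 / 2) * hf b M b =
      (1 / 2) * hf (fun i => b (Sum.inl i)) M11 (fun i => b (Sum.inl i)) +
      (1 / 2) * hf (fun i => b (Sum.inr (Sum.inl i))) M22 (fun i => b (Sum.inr (Sum.inl i))) +
      (1 / 2) * hf (fun i => b (Sum.inr (Sum.inr i))) M33 (fun i => b (Sum.inr (Sum.inr i))) +
      hf (fun i => b (Sum.inl i)) M12 (fun i => b (Sum.inr (Sum.inl i))) +
      hf (fun i => b (Sum.inl i)) M13 (fun i => b (Sum.inr (Sum.inr i))) +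
      hf (fun i => b (Sum.inr (Sum.inl i))) M23 (fun i => b (Sum.inr (Sum.inr i))) := by
  have e : hf b M b =
      hf (fun i => b (Sum.inl i)) M11 (fun i => b (Sum.inl i)) +
      hf (fun i => b (Sum.inl i)) M12 (fun i => b (Sum.inr (Sum.inl i))) +
      hf (fun i => b (Sum.inl i)) M13 (fun i => b (Sum.inr (Sum.inr i))) +
      hf (fun i => b (Sum.inr (Sum.inl i))) M12ᴴ (fun i => b (Sum.inl i)) +
      hf (fun i => b (Sum.inr (Sum.inl i))) M22 (fun i => b (Sum.inr (Sum.inl i))) +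
      hf (fun i => b (Sum.inr (Sum.inl i))) M23 (fun i => b (Sum.inr (Sum.inr i))) +
      hf (fun i => b (Sum.inr (Sum.inr i))) M13ᴴ (fun i => b (Sum.inl i)) +
      hf (fun i => b (Sum.inr (Sum.inr i))) M23ᴴ (fun i => b (Sum.inr (Sum.inl i))) +
      hf (fun i => b (Sum.inr (Sum.inr i))) M33 (fun i => b (Sum.inr (Sum.inr i))) := by
    unfold hf
    simp only [Fintype.sum_sum_type, h11, h12, h13, h21, h22, h23, h31, h32, h33,
      Finset.sum_add_distrib, Complex.add_re]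
    ring
  rw [e, hf_ct, hf_ct, hf_ct]
  ring

/-- the energy of one plaquette of the plane 12 -/
theorem q12_split (θ x : ℝ) (a b c d : ℂ) :
    q12 θ x a b c d =
      ((1 / 2) * Real.cos (θ / 2) * (‖a‖ ^ 2 + ‖c‖ ^ 2) - (ee θ (-((2 * x + 1) / 2)) * a * star c).re) +
      ((1 / 2) * Real.cos (θ / 2) * (‖b‖ ^ 2 + ‖d‖ ^ 2) - (b * star d).re) +
      -(-(ee θ ((x + 1) / 2) * c * star d) - ee θ (-(x / 2)) * a * star b +
        ee θ (-(x / 2)) * b * star c + ee θ (-((x + 1) / 2)) * a * star d).re := by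
  unfold q12
  simp only [Complex.add_re, Complex.sub_re, Complex.neg_re]
  ring

theorem q23_split (θ x : ℝ) (a b c d : ℂ) :
    q23 θ x a b c d =
      (1 / 2) * ‖a - c‖ ^ 2 + (1 / 2) * ‖ee θ (x / 2) * b - ee θ (-(x / 2)) * d‖ ^ 2 +
      ((a - c) * star (ee θ (x / 2) * b - ee θ (-(x / 2)) * d)).re := by
  unfold q23
  rw [← half_sq]
  congr 3
  ring

theorem q13_split (a b c d : ℂ) :
    (1 / 2 : ℝ) * ‖a + b - c - d‖ ^ 2 =
      (1 / 2) * ‖a - c‖ ^ 2 + (1 / 2) * ‖b - d‖ ^ 2 + ((a - c) * star (b - d)).re := by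
  rw [← half_sq]
  congr 3
  ring

theorem tqf (h11 : S_Q11) (h22 : S_Q22) (h33 : S_Q33) (h12 : S_Q12) (h13 : S_Q13)
    (h23 : S_Q23) : S_QF := by
  intro L hL θ b
  rw [hf_three (hC L θ) b (m11 L θ - g1 L * (g1 L)ᴴ) (m22 L θ - g2 L θ * (g2 L θ)ᴴ)
    (m33 L θ - g3 L * (g3 L)ᴴ) (m12 L θ - g1 L * (g2 L θ)ᴴ) (-(g1 L * (g3 L)ᴴ))
    (-(g2 L θ * (g3 L)ᴴ)) (fun _ _ => rfl) (fun _ _ => rfl) (fun i j => zero_sub _)
    (fun i j => by
      rw [Matrix.conjTranspose_sub, Matrix.conjTranspose_mul, Matrix.conjTranspose_conjTranspose]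
      rfl)
    (fun _ _ => rfl) (fun i j => zero_sub _)
    (fun i j => by
      rw [Matrix.conjTranspose_neg, Matrix.conjTranspose_mul, Matrix.conjTranspose_conjTranspose]
      exact zero_sub _)
    (fun i j => by
      rw [Matrix.conjTranspose_neg, Matrix.conjTranspose_mul, Matrix.conjTranspose_conjTranspose]
      exact zero_sub _)
    (fun _ _ => rfl)]
  rw [← h11 L hL θ, ← h22 L hL θ, ← h33 L hL θ, ← h12 L hL θ, ← h13 L hL, ← h23 L hL θ]
  unfold qf
  simp only [q12_split, q23_split, q13_split, s12_add, s13_add, s23_add]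
  ring

end Pool.Agent.H962.AF
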